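import Pool.Agent.Q121.BN.Asm
import Pool.Agent.Q121.BN.Hyb
import Pool.Agent.Q121.BN.Mod
import Pool.Agent.Q121.BN.Prod
import Pool.Agent.Q121.BN.Inf
import Pool.Agent.Q137.BN.Phi
import Pool.Agent.Q137.BN.Phm

/-!
# The bidirectional 3-neighbour graph on `ℤ²` percolates (MP_627919_pr, Q1)

Proof (helper121, helper291, helper292, helper137): the laws of the retained directions are replaced
vertex by vertex. If every direction of every vertex is retained independently with probability
`1/√2` the model is critical bond percolation (`p = 1/2`). At every vertex a uniform 3-subset is at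
least as good for the connection of the origin to the boundary of a box (equality exactly if
one direction leads to the cluster of the origin and one to the boundary), and a local
modification of the neighbouring vertices produces a pattern with a strict gain; so the model is
better than bond percolation with some `p > 1/2`, which percolates.
-/

open MeasureTheory

namespace Pool.Agent.Results.MP_627919_pr.Percolates

/-- The four unit vectors of `ℤ²`. -/
def e : Fin 4 → ℤ × ℤ := ![(1, 0), (0, 1), (-1, 0), (0, -1)]

/-- A choice of exactly `3` of the `4` directions. -/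
abbrev Choice : Type := {S : Finset (Fin 4) // S.card = 3}

instance : MeasurableSpace Choice := ⊤

instance : Nonempty Choice := ⟨⟨{0, 1, 2}, by decide⟩⟩

/-- The law of the choices of all vertices of `ℤ²`: independent and uniform among the sets of
exactly `3` directions. -/
noncomputable def law : Measure (ℤ × ℤ → Choice) :=
  Measure.infinitePi (fun _ => (PMF.uniformOfFintype Choice).toMeasure)

/-- `y` is one of the `3` nearest neighbours chosen by `x`. -/
def Chosen (S : ℤ × ℤ → Choice) (x y : ℤ × ℤ) : Prop := ∃ i ∈ (S x).1, y = x + e i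

/-- The bidirectional 3-neighbour graph: `x` and `y` are adjacent if `x` chooses `y` and `y`
chooses `x`. -/
def bng (S : ℤ × ℤ → Choice) : SimpleGraph (ℤ × ℤ) where
  Adj x y := Chosen S x y ∧ Chosen S y x
  symm := ⟨fun _ _ h => ⟨h.2, h.1⟩⟩
  loopless := ⟨by
    rintro ⟨a, b⟩ ⟨⟨i, -, h⟩, -⟩
    have h1 := congrArg Prod.fst h
    have h2 := congrArg Prod.snd h
    fin_cases i <;> simp [e] at h1 h2⟩

/-- The percolation probability: the probability that the component of the origin in the
bidirectional 3-neighbour graph is infinite. -/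
noncomputable def theta : ℝ :=
  law.real {S | {y | (bng S).Reachable (0, 0) y}.Infinite}

theorem bng_eq (S : ℤ × ℤ → Choice) : bng S = Q121.BN.bnG S := by
  have hnb : ∀ (x : ℤ × ℤ) (i : Fin 4), x + e i = Q121.BN.nb x i := by
    rintro ⟨a, b⟩ i
    fin_cases i <;> simp [e, Q121.BN.nb, Q121.BN.dir]
  ext x y
  show (Chosen S x y ∧ Chosen S y x) ↔
    ∃ i : Fin 4, i ∈ (S x).1 ∧ Q121.BN.op i ∈ (S y).1 ∧ y = Q121.BN.nb x i
  constructor
  · rintro ⟨⟨i, hi, h1⟩, ⟨j, hj, h2⟩⟩
    refine ⟨i, hi, ?_, by rw [h1, hnb]⟩
    have : j = Q121.BN.op i := by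
      rw [hnb] at h1 h2
      apply Q121.BN.nb_inj (x := y)
      rw [← h2, h1, Q121.BN.nb_op]
    rw [← this]; exact hj
  · rintro ⟨i, hi, hj, h⟩
    refine ⟨⟨i, hi, by rw [h, hnb]⟩, ⟨Q121.BN.op i, hj, ?_⟩⟩
    rw [hnb, h, Q121.BN.nb_op]

/-- **The bidirectional 3-neighbour graph on `ℤ²` percolates.** -/
theorem result : 0 < theta := by
  have h := Q121.BN.main Q121.BN.hyb Q121.BN.pat Q137.BN.phi_le Q137.BN.phm Q121.BN.fib
    Q121.BN.mod Q121.BN.prod Q121.BN.inf
  have e1 : {S : ℤ × ℤ → Choice | {y | (bng S).Reachable (0, 0) y}.Infinite} =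
      {S : ℤ × ℤ → Choice | {y | (Q121.BN.bnG S).Reachable (0, 0) y}.Infinite} := by
    ext S
    rw [Set.mem_ofPred_eq, Set.mem_ofPred_eq, bng_eq]
  unfold theta
  rw [e1]
  exact h

end Pool.Agent.Results.MP_627919_pr.Percolates
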